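import Pool.Agent.N102.EC.Stm
import Pool.Agent.H379R3.Reg

set_option autoImplicit false

/-! Project EC, leaf QUOT: reduction of the dimension of a regular local ring by an element of order one which does
not divide a given element. -/

universe u

open IsLocalRing Module

namespace Pool.Agent.N765.EC

open Pool.Agent.H379R3

/-- Two elements of the maximal ideal which are independent modulo its square. -/
theorem exists_pair {P : Type u} [CommRing P] [IsRegularLocalRing P] (n : ℕ)
    (hd : ringKrullDim P = (n + 2 : ℕ)) : ∃ z w : P, z ∈ maximalIdeal P ∧ w ∈ maximalIdeal P ∧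
      ∀ a b : P, a * z + b * w ∈ maximalIdeal P ^ 2 → a ∈ maximalIdeal P ∧ b ∈ maximalIdeal P := by
  have hr : Module.finrank (ResidueField P) (CotangentSpace P) = n + 2 := by
    have h1 := finrank_cotangent (B := P)
    rw [hd] at h1
    exact_mod_cast h1
  obtain ⟨b⟩ : Nonempty (Basis (Fin (n + 2)) (ResidueField P) (CotangentSpace P)) :=
    ⟨Module.finBasisOfFinrankEq _ _ hr⟩
  obtain ⟨z, hz⟩ := Ideal.toCotangent_surjective (maximalIdeal P) (b 0)
  obtain ⟨w, hw⟩ := Ideal.toCotangent_surjective (maximalIdeal P) (b 1)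
  refine ⟨z, w, z.2, w.2, fun x y h => ?_⟩
  have h1 : (maximalIdeal P).toCotangent (x • z + y • w) = 0 := (Ideal.toCotangent_eq_zero _ _).2 h
  rw [map_add, map_smul, map_smul, hz, hw] at h1
  have h2 : (residue P x) • b 0 + (residue P y) • b 1 = 0 := h1
  have h01 : (0 : Fin (n + 2)) ≠ 1 := Fin.zero_ne_one
  have h3 := congrArg (fun v => b.repr v 0) h2
  have h4 := congrArg (fun v => b.repr v 1) h2
  simp only [map_add, map_smul, Basis.repr_self, Finsupp.coe_add, Finsupp.coe_smul, Pi.add_apply,
    Pi.smul_apply, Finsupp.single_eq_same, Finsupp.single_eq_of_ne h01, Finsupp.single_eq_of_ne h01.symm,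
    smul_eq_mul, mul_one, mul_zero, add_zero, zero_add, map_zero, Finsupp.coe_zero, Pi.zero_apply] at h3 h4
  exact ⟨(residue_eq_zero_iff x).1 h3, (residue_eq_zero_iff y).1 h4⟩

theorem t_quot : Pool.Agent.N102.EC.S_QUOT.{u} := by
  intro P _ _ n hd f hf
  classical
  have hdom : IsDomain P := isDomain P
  obtain ⟨z, w, hz, hw, hzw⟩ := exists_pair n hd
  have h1m : (1 : P) ∉ maximalIdeal P := fun h =>
    (maximalIdeal.isMaximal P).ne_top ((Ideal.eq_top_iff_one _).2 h)
  set y : ℕ → P := fun N => w - z ^ (N + 2) with hy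
  have hzp : ∀ N : ℕ, z ^ (N + 2) ∈ maximalIdeal P ^ 2 := fun N =>
    Ideal.pow_le_pow_right (by omega) (Ideal.pow_mem_pow hz (N + 2))
  have hym : ∀ N, y N ∈ maximalIdeal P := fun N =>
    Ideal.sub_mem _ hw (Ideal.pow_le_self two_ne_zero (hzp N))
  have hy2 : ∀ N, y N ∉ maximalIdeal P ^ 2 := by
    intro N h
    have h2 : (0 : P) * z + 1 * w ∈ maximalIdeal P ^ 2 := by
      have h3 := Ideal.add_mem _ h (hzp N)
      simpa [hy] using h3
    exact h1m (hzw 0 1 h2).2
  have hreg := fun N => regular_quotient (y N) (hym N) (hy2 N) (n + 1) hd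
  have hy0 : ∀ N, y N ≠ 0 := fun N h => hy2 N (by rw [h]; exact Ideal.zero_mem _)
  have hprime : ∀ N, Prime (y N) := by
    intro N
    have h2 := (hreg N).1
    have h3 : IsDomain (P ⧸ Ideal.span {y N}) := isDomain _
    exact (Ideal.span_singleton_prime (hy0 N)).1 ((Ideal.Quotient.isDomain_iff_prime _).1 h3)
  -- no `y N` divides both `z` and `w`
  have hnz : ∀ N, ¬ y N ∣ z := by
    rintro N ⟨a, ha⟩
    have h2 : y N ∣ w := by
      have h3 : w = y N + z ^ (N + 2) := by simp [hy]
      rw [h3]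
      exact dvd_add dvd_rfl (dvd_pow ⟨a, ha⟩ (by omega))
    obtain ⟨b, hb⟩ := h2
    have h4 : b * z + (-a) * w ∈ maximalIdeal P ^ 2 := by
      have h5 : b * z + (-a) * w = 0 := by rw [ha, hb]; ring
      rw [h5]
      exact Ideal.zero_mem _
    have h6 : a ∈ maximalIdeal P := by
      have := (hzw _ _ h4).2
      rwa [neg_mem_iff] at this
    have h7 : (1 : P) * z + 0 * w ∈ maximalIdeal P ^ 2 := by
      rw [one_mul, zero_mul, add_zero, ha, pow_two]
      exact Ideal.mul_mem_mul (hym N) h6
    exact h1m (hzw _ _ h7).1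
  have hunit : ∀ k : ℕ, 0 < k → IsUnit (1 - z ^ k) := by
    intro k hk
    by_contra h
    have h2 : (1 : P) - z ^ k ∈ maximalIdeal P := (mem_maximalIdeal _).2 h
    have h3 : z ^ k ∈ maximalIdeal P := Ideal.pow_mem_of_mem _ hz k hk
    have := Ideal.add_mem _ h2 h3
    rw [sub_add_cancel] at this
    exact h1m this
  have hndvd : ∀ M N, M < N → ¬ y N ∣ y M := by
    intro M N hMN h
    have h2 : y N ∣ y N - y M := dvd_sub dvd_rfl h
    have h3 : y N - y M = z ^ (M + 2) * (1 - z ^ (N - M)) := by
      have h4 : z ^ (N + 2) = z ^ (M + 2) * z ^ (N - M) := by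
        rw [← pow_add]
        congr 1
        omega
      simp only [hy]
      rw [h4]
      ring
    rw [h3] at h2
    rcases (hprime N).dvd_or_dvd h2 with h5 | h5
    · exact hnz N ((hprime N).dvd_of_dvd_pow h5)
    · exact (hprime N).not_isUnit (isUnit_of_dvd_unit h5 (hunit _ (by omega)))
  by_contra hcon
  push Not at hcon
  have hdiv : ∀ N, y N ∣ f := by
    intro N
    by_contra h
    have h2 : f ∉ Ideal.span {y N} := fun h3 => h (Ideal.mem_span_singleton.1 h3)
    exact hcon (y N) (hym N) h2 (hreg N).1 (hreg N).2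
  have hprod : ∀ N, (∏ i ∈ Finset.range N, y i) ∣ f := by
    intro N
    induction N with
    | zero => simp
    | succ N ih =>
      obtain ⟨g, hg⟩ := ih
      have h2 := hdiv N
      rw [hg] at h2
      rcases (hprime N).dvd_or_dvd h2 with h3 | h3
      · obtain ⟨i, hi, h4⟩ := (hprime N).exists_mem_finset_dvd h3
        exact absurd h4 (hndvd i N (Finset.mem_range.1 hi))
      · obtain ⟨g', hg'⟩ := h3
        refine ⟨g', ?_⟩
        rw [Finset.prod_range_succ, hg, hg']
        ring
  have hmem : ∀ N, (∏ i ∈ Finset.range N, y i) ∈ maximalIdeal P ^ N := by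
    intro N
    induction N with
    | zero => simp
    | succ N ih =>
      rw [Finset.prod_range_succ, pow_succ]
      exact Ideal.mul_mem_mul ih (hym N)
  have hinf : f ∈ (⨅ N : ℕ, maximalIdeal P ^ N) := by
    rw [Ideal.mem_iInf]
    intro N
    obtain ⟨g, hg⟩ := hprod N
    rw [hg]
    exact Ideal.mul_mem_right _ _ (hmem N)
  rw [Ideal.iInf_pow_eq_bot_of_isLocalRing _ (maximalIdeal.isMaximal P).ne_top] at hinf
  exact hf hinf

end Pool.Agent.N765.EC
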